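import Mathlib

set_option autoImplicit false

namespace Pool.Agent.Results.MP_28c31d_co.OddSub

open Finset

section defs
variable {V E : Type}

/-- Laplacian of the multigraph with vertex set `V` and edge set `E`, edge `e` joining `s e`
and `t e`. -/
def lap [DecidableEq V] [Fintype E] (s t : E → V) (f : V → ℤ) (v : V) : ℤ :=
  ∑ e, ((if s e = v then f (s e) - f (t e) else 0) + (if t e = v then f (t e) - f (s e) else 0))

/-- For every vertex `v`, the divisor `D - 1_v` is equivalent to an effective divisor. -/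
def RankGeOne [DecidableEq V] [Fintype E] (s t : E → V) (D : V → ℤ) : Prop :=
  ∀ v, ∃ f : V → ℤ, ∀ w, 0 ≤ D w - (if w = v then 1 else 0) - lap s t f w

/-- Divisorial gonality. -/
noncomputable def gon [Fintype V] [DecidableEq V] [Fintype E] (s t : E → V) : ℕ :=
  sInf {d : ℕ | ∃ D : V → ℤ, (∀ v, 0 ≤ D v) ∧ ∑ v, D v = d ∧ RankGeOne s t D}

/-- The multigraph is connected. -/
def Connected (s t : E → V) : Prop :=
  Nonempty V ∧ ∀ u v, Relation.EqvGen (fun a b => ∃ e, s e = a ∧ t e = b) u v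

/-- First end of the `i`-th edge of the path with `j + 1` edges that replaces `e`. -/
def subS (s : E → V) (j : ℕ) (a : E × Fin (j + 1)) : V ⊕ (E × Fin j) :=
  Fin.cases (Sum.inl (s a.1)) (fun i => Sum.inr (a.1, i)) a.2

/-- Second end of the `i`-th edge of the path with `j + 1` edges that replaces `e`. -/
def subT (t : E → V) (j : ℕ) (a : E × Fin (j + 1)) : V ⊕ (E × Fin j) :=
  Fin.lastCases (Sum.inl (t a.1)) (fun i => Sum.inr (a.1, i)) a.2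

theorem sum_mul_lap [Fintype V] [DecidableEq V] [Fintype E] (s t : E → V) (f g : V → ℤ) :
    ∑ v, g v * lap s t f v = ∑ e, (g (s e) - g (t e)) * (f (s e) - f (t e)) := by
  simp only [lap, mul_sum, mul_add, mul_ite, mul_zero]
  rw [sum_comm]
  refine sum_congr rfl fun e _ => ?_
  rw [sum_add_distrib, sum_ite_eq, sum_ite_eq]
  simp only [mem_univ, if_true]
  ring

theorem cut_le [Fintype V] [DecidableEq V] [Fintype E] (s t : E → V) (D f : V → ℤ)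
    (hD : ∀ v, 0 ≤ D v) (hf : ∀ v, 0 ≤ D v - lap s t f v) (θ : ℤ) :
    ∑ e, ((if θ ≤ f (s e) then 1 else 0) - (if θ ≤ f (t e) then 1 else 0)) *
      (f (s e) - f (t e)) ≤ ∑ v, D v := by
  rw [← sum_mul_lap s t f (fun v => if θ ≤ f v then 1 else 0)]
  refine sum_le_sum fun v _ => ?_
  have := hD v
  have := hf v
  split_ifs <;> linarith

end defs

theorem one_chip {n : ℕ} (a : Fin (n + 1) → ℤ) (h0 : ∀ j, 0 ≤ a j) (h1 : ∑ j, a j = 1) :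
    0 ≤ ∑ j : Fin (n + 1), (j : ℤ) * a j ∧ ∑ j : Fin (n + 1), (j : ℤ) * a j ≤ n ∧
      ∀ k, 1 ≤ a k → ∑ j : Fin (n + 1), (j : ℤ) * a j = k := by
  refine ⟨sum_nonneg fun j _ => mul_nonneg (by positivity) (h0 j), ?_, fun k hk => ?_⟩
  · calc _ ≤ ∑ j : Fin (n + 1), (n : ℤ) * a j :=
          sum_le_sum fun j _ => mul_le_mul_of_nonneg_right (by have := j.2; omega) (h0 j)
      _ = n := by rw [← mul_sum, h1, mul_one]
  · have h2 : a k ≤ 1 := h1 ▸ single_le_sum (fun j _ => h0 j) (mem_univ k)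
    rw [sum_eq_single k]
    · rw [le_antisymm h2 hk, mul_one]
    · intro j _ hj
      have := add_le_sum (f := a) (fun j _ => h0 j) (mem_univ j) (mem_univ k) hj
      have := h0 j
      rw [show a j = 0 by omega, mul_zero]
    · simp

theorem tele (G : ℕ → ℤ) (x N : ℕ) :
    ∑ n ∈ range N, (G n - G (n + 1)) * (((min (n + 1) x : ℕ) : ℤ) - ((min n x : ℕ) : ℤ)) =
      G 0 - G (min N x) := by
  induction N with
  | zero => simp
  | succ N ih =>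
    rw [sum_range_succ, ih]
    rcases le_or_gt x N with h | h
    · rw [min_eq_right h, min_eq_right (by omega)]; ring
    · rw [min_eq_left h.le, min_eq_left (by omega)]; push_cast; ring

theorem sum_three (h : ℕ → ℤ) (n : ℕ) :
    ∑ j : Fin n, (h (3 * j) + h (3 * j + 1) + h (3 * j + 2)) = ∑ i ∈ range (3 * n), h i := by
  rw [Fin.sum_univ_eq_sum_range (fun j => h (3 * j) + h (3 * j + 1) + h (3 * j + 2))]
  induction n with
  | zero => simp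
  | succ n ih =>
    rw [sum_range_succ, ih, show 3 * (n + 1) = 3 * n + 1 + 1 + 1 by ring, sum_range_succ,
      sum_range_succ, sum_range_succ]
    ring

def L (c : Fin 21) : ℕ := [1, 2, 1, 1, 1, 1, 3, 1, 1, 1, 1, 1, 2, 1, 1, 1, 2, 1, 2, 2, 1].getD c 0
def pp (c : Fin 21) : ℕ := [3, 0, 0, 2, 1, 0, 1, 5, 4, 0, 3, 6, 2, 0, 1, 2, 0, 4, 4, 1, 2].getD c 0
def qq (c : Fin 21) : ℕ := [5, 6, 7, 7, 7, 5, 3, 6, 6, 2, 6, 7, 3, 1, 4, 5, 4, 7, 5, 2, 6].getD c 0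
def xx (c : Fin 21) : ℕ := [3, 0, 0, 2, 2, 0, 3, 0, 2, 0, 2, 3, 1, 0, 0, 1, 0, 3, 5, 3, 0].getD c 0
def dd (a b : ℕ) : ℕ := ([[0, 0, 0, 0, 0, 0, 0, 0], [3, 0, 3, 3, 0, 3, 2, 2],
  [3, 3, 0, 1, 1, 1, 0, 2], [6, 6, 5, 0, 3, 3, 2, 5], [6, 3, 4, 3, 0, 5, 2, 3],
  [3, 3, 2, 0, 1, 0, 0, 3], [6, 4, 3, 1, 1, 3, 0, 3], [3, 1, 1, 1, 0, 2, 0, 0]].getD a []).getD b 0
def blk (α : Fin 21 × Bool) : ℕ := if α.2 then qq α.1 else pp α.1
def rep (b : ℕ) : Fin 21 × Bool := [(1, false), (4, false), (3, false), (0, false), (8, false),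
  (7, false), (11, false), (2, true)].getD b (0, false)

abbrev VV : Type := Σ c : Fin 21, Fin (L c + 1)
abbrev TT : Type := {α : Fin 21 × Bool // rep (blk α) ≠ α}
abbrev EE : Type := (Σ c : Fin 21, Fin (L c)) ⊕ (TT × Fin 22)

instance instV : DecidableEq VV := inferInstance
instance instE : DecidableEq EE := inferInstance

def att (α : Fin 21 × Bool) : VV := ⟨α.1, if α.2 then Fin.last _ else 0⟩
def ss : EE → VV := Sum.elim (fun a => ⟨a.1, a.2.castSucc⟩) (fun a => att a.1.1)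
def tt : EE → VV := Sum.elim (fun a => ⟨a.1, a.2.succ⟩) (fun a => att (rep (blk a.1.1)))

theorem blk_rep : ∀ α, blk (rep (blk α)) = blk α := by decide
theorem rep_ne : ∀ α, rep (blk α) ≠ α → (rep (blk α)).1 ≠ α.1 := by decide
theorem dd_spec : ∀ (α : Fin 21 × Bool) (c : Fin 21),
    dd (blk α) (qq c) ≤ dd (blk α) (pp c) + xx c ∧
    dd (blk α) (pp c) + xx c ≤ dd (blk α) (qq c) + 3 * L c := by decide
theorem dd_tight : ∀ c : Fin 21, dd (pp c) (qq c) = xx c ∧ dd (qq c) (pp c) + xx c = 3 * L c ∧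
    dd (pp c) (pp c) = 0 ∧ dd (qq c) (qq c) = 0 := by decide

theorem core (x : Fin 21 → ℤ) (H : ∀ α : Fin 21 × Bool, ∃ φ : ℕ → ℤ,
    (∀ d, 0 ≤ x d - (φ (qq d) - φ (pp d)) ∧ x d - (φ (qq d) - φ (pp d)) ≤ L d) ∧
    x α.1 - (φ (qq α.1) - φ (pp α.1)) = if α.2 then (L α.1 : ℤ) else 0) : False := by
  have k0 : 0 ≤ 2 + x 4 - x 11 - x 10 - x 6 ∧ 0 ≤ 1 + x 14 + x 8 - x 10 - x 6 ∧ 0 ≤ 2 - x 13 + x 5 - x 0 - x 6 := by
    obtain ⟨φ, h, e⟩ := H (6, false)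
    have e' : x 6 - (φ 3 - φ 1) = 0 := e
    have h0 : 0 ≤ x 0 - (φ 5 - φ 3) ∧ x 0 - (φ 5 - φ 3) ≤ 1 := h 0
    have h4 : 0 ≤ x 4 - (φ 7 - φ 1) ∧ x 4 - (φ 7 - φ 1) ≤ 1 := h 4
    have h5 : 0 ≤ x 5 - (φ 5 - φ 0) ∧ x 5 - (φ 5 - φ 0) ≤ 1 := h 5
    have h8 : 0 ≤ x 8 - (φ 6 - φ 4) ∧ x 8 - (φ 6 - φ 4) ≤ 1 := h 8
    have h10 : 0 ≤ x 10 - (φ 6 - φ 3) ∧ x 10 - (φ 6 - φ 3) ≤ 1 := h 10
    have h11 : 0 ≤ x 11 - (φ 7 - φ 6) ∧ x 11 - (φ 7 - φ 6) ≤ 1 := h 11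
    have h13 : 0 ≤ x 13 - (φ 1 - φ 0) ∧ x 13 - (φ 1 - φ 0) ≤ 1 := h 13
    have h14 : 0 ≤ x 14 - (φ 4 - φ 1) ∧ x 14 - (φ 4 - φ 1) ≤ 1 := h 14
    omega
  have k1 : 0 ≤ 0 - x 15 + x 3 - x 17 + x 18 ∧ 0 ≤ -1 + x 7 - x 8 + x 18 := by
    obtain ⟨φ, h, e⟩ := H (18, true)
    have e' : x 18 - (φ 5 - φ 4) = 2 := e
    have h3 : 0 ≤ x 3 - (φ 7 - φ 2) ∧ x 3 - (φ 7 - φ 2) ≤ 1 := h 3
    have h7 : 0 ≤ x 7 - (φ 6 - φ 5) ∧ x 7 - (φ 6 - φ 5) ≤ 1 := h 7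
    have h8 : 0 ≤ x 8 - (φ 6 - φ 4) ∧ x 8 - (φ 6 - φ 4) ≤ 1 := h 8
    have h15 : 0 ≤ x 15 - (φ 5 - φ 2) ∧ x 15 - (φ 5 - φ 2) ≤ 1 := h 15
    have h17 : 0 ≤ x 17 - (φ 7 - φ 4) ∧ x 17 - (φ 7 - φ 4) ≤ 1 := h 17
    omega
  have k2 : 0 ≤ -2 + x 0 - x 5 + x 13 + x 6 ∧ 0 ≤ -2 + x 10 + x 11 - x 4 + x 6 ∧ 0 ≤ -1 + x 10 - x 8 - x 14 + x 6 := by
    obtain ⟨φ, h, e⟩ := H (6, true)
    have e' : x 6 - (φ 3 - φ 1) = 3 := e
    have h0 : 0 ≤ x 0 - (φ 5 - φ 3) ∧ x 0 - (φ 5 - φ 3) ≤ 1 := h 0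
    have h4 : 0 ≤ x 4 - (φ 7 - φ 1) ∧ x 4 - (φ 7 - φ 1) ≤ 1 := h 4
    have h5 : 0 ≤ x 5 - (φ 5 - φ 0) ∧ x 5 - (φ 5 - φ 0) ≤ 1 := h 5
    have h8 : 0 ≤ x 8 - (φ 6 - φ 4) ∧ x 8 - (φ 6 - φ 4) ≤ 1 := h 8
    have h10 : 0 ≤ x 10 - (φ 6 - φ 3) ∧ x 10 - (φ 6 - φ 3) ≤ 1 := h 10
    have h11 : 0 ≤ x 11 - (φ 7 - φ 6) ∧ x 11 - (φ 7 - φ 6) ≤ 1 := h 11
    have h13 : 0 ≤ x 13 - (φ 1 - φ 0) ∧ x 13 - (φ 1 - φ 0) ≤ 1 := h 13
    have h14 : 0 ≤ x 14 - (φ 4 - φ 1) ∧ x 14 - (φ 4 - φ 1) ≤ 1 := h 14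
    omega
  have k3 : 0 ≤ 1 + x 17 - x 3 + x 15 - x 18 ∧ 0 ≤ 1 + x 8 - x 7 - x 18 := by
    obtain ⟨φ, h, e⟩ := H (18, false)
    have e' : x 18 - (φ 5 - φ 4) = 0 := e
    have h3 : 0 ≤ x 3 - (φ 7 - φ 2) ∧ x 3 - (φ 7 - φ 2) ≤ 1 := h 3
    have h7 : 0 ≤ x 7 - (φ 6 - φ 5) ∧ x 7 - (φ 6 - φ 5) ≤ 1 := h 7
    have h8 : 0 ≤ x 8 - (φ 6 - φ 4) ∧ x 8 - (φ 6 - φ 4) ≤ 1 := h 8
    have h15 : 0 ≤ x 15 - (φ 5 - φ 2) ∧ x 15 - (φ 5 - φ 2) ≤ 1 := h 15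
    have h17 : 0 ≤ x 17 - (φ 7 - φ 4) ∧ x 17 - (φ 7 - φ 4) ≤ 1 := h 17
    omega
  have k4 : 0 ≤ 1 + x 20 - x 10 - x 12 ∧ 0 ≤ 1 + x 15 - x 0 - x 12 := by
    obtain ⟨φ, h, e⟩ := H (12, false)
    have e' : x 12 - (φ 3 - φ 2) = 0 := e
    have h0 : 0 ≤ x 0 - (φ 5 - φ 3) ∧ x 0 - (φ 5 - φ 3) ≤ 1 := h 0
    have h10 : 0 ≤ x 10 - (φ 6 - φ 3) ∧ x 10 - (φ 6 - φ 3) ≤ 1 := h 10
    have h15 : 0 ≤ x 15 - (φ 5 - φ 2) ∧ x 15 - (φ 5 - φ 2) ≤ 1 := h 15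
    have h20 : 0 ≤ x 20 - (φ 6 - φ 2) ∧ x 20 - (φ 6 - φ 2) ≤ 1 := h 20
    omega
  have k5 : 0 ≤ 0 - x 14 - x 13 + x 16 ∧ 0 ≤ -1 + x 17 - x 2 + x 16 := by
    obtain ⟨φ, h, e⟩ := H (16, true)
    have e' : x 16 - (φ 4 - φ 0) = 2 := e
    have h2 : 0 ≤ x 2 - (φ 7 - φ 0) ∧ x 2 - (φ 7 - φ 0) ≤ 1 := h 2
    have h13 : 0 ≤ x 13 - (φ 1 - φ 0) ∧ x 13 - (φ 1 - φ 0) ≤ 1 := h 13
    have h14 : 0 ≤ x 14 - (φ 4 - φ 1) ∧ x 14 - (φ 4 - φ 1) ≤ 1 := h 14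
    have h17 : 0 ≤ x 17 - (φ 7 - φ 4) ∧ x 17 - (φ 7 - φ 4) ≤ 1 := h 17
    omega
  have k6 : 0 ≤ 1 + x 4 - x 3 - x 19 ∧ 0 ≤ 1 - x 13 + x 9 - x 19 := by
    obtain ⟨φ, h, e⟩ := H (19, false)
    have e' : x 19 - (φ 2 - φ 1) = 0 := e
    have h3 : 0 ≤ x 3 - (φ 7 - φ 2) ∧ x 3 - (φ 7 - φ 2) ≤ 1 := h 3
    have h4 : 0 ≤ x 4 - (φ 7 - φ 1) ∧ x 4 - (φ 7 - φ 1) ≤ 1 := h 4
    have h9 : 0 ≤ x 9 - (φ 2 - φ 0) ∧ x 9 - (φ 2 - φ 0) ≤ 1 := h 9
    have h13 : 0 ≤ x 13 - (φ 1 - φ 0) ∧ x 13 - (φ 1 - φ 0) ≤ 1 := h 13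
    omega
  have k7 : 0 ≤ -1 + x 10 - x 20 + x 12 ∧ 0 ≤ -1 + x 0 - x 15 + x 12 := by
    obtain ⟨φ, h, e⟩ := H (12, true)
    have e' : x 12 - (φ 3 - φ 2) = 2 := e
    have h0 : 0 ≤ x 0 - (φ 5 - φ 3) ∧ x 0 - (φ 5 - φ 3) ≤ 1 := h 0
    have h10 : 0 ≤ x 10 - (φ 6 - φ 3) ∧ x 10 - (φ 6 - φ 3) ≤ 1 := h 10
    have h15 : 0 ≤ x 15 - (φ 5 - φ 2) ∧ x 15 - (φ 5 - φ 2) ≤ 1 := h 15
    have h20 : 0 ≤ x 20 - (φ 6 - φ 2) ∧ x 20 - (φ 6 - φ 2) ≤ 1 := h 20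
    omega
  have k8 : 0 ≤ 1 + x 2 - x 11 - x 1 ∧ 0 ≤ 0 + x 5 + x 7 - x 1 ∧ 0 ≤ 0 + x 9 + x 20 - x 1 := by
    obtain ⟨φ, h, e⟩ := H (1, false)
    have e' : x 1 - (φ 6 - φ 0) = 0 := e
    have h2 : 0 ≤ x 2 - (φ 7 - φ 0) ∧ x 2 - (φ 7 - φ 0) ≤ 1 := h 2
    have h5 : 0 ≤ x 5 - (φ 5 - φ 0) ∧ x 5 - (φ 5 - φ 0) ≤ 1 := h 5
    have h7 : 0 ≤ x 7 - (φ 6 - φ 5) ∧ x 7 - (φ 6 - φ 5) ≤ 1 := h 7
    have h9 : 0 ≤ x 9 - (φ 2 - φ 0) ∧ x 9 - (φ 2 - φ 0) ≤ 1 := h 9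
    have h11 : 0 ≤ x 11 - (φ 7 - φ 6) ∧ x 11 - (φ 7 - φ 6) ≤ 1 := h 11
    have h20 : 0 ≤ x 20 - (φ 6 - φ 2) ∧ x 20 - (φ 6 - φ 2) ≤ 1 := h 20
    omega
  have k9 : 0 ≤ -1 + x 11 - x 2 + x 1 ∧ 0 ≤ 0 - x 20 - x 9 + x 1 ∧ 0 ≤ 0 - x 7 - x 5 + x 1 := by
    obtain ⟨φ, h, e⟩ := H (1, true)
    have e' : x 1 - (φ 6 - φ 0) = 2 := e
    have h2 : 0 ≤ x 2 - (φ 7 - φ 0) ∧ x 2 - (φ 7 - φ 0) ≤ 1 := h 2
    have h5 : 0 ≤ x 5 - (φ 5 - φ 0) ∧ x 5 - (φ 5 - φ 0) ≤ 1 := h 5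
    have h7 : 0 ≤ x 7 - (φ 6 - φ 5) ∧ x 7 - (φ 6 - φ 5) ≤ 1 := h 7
    have h9 : 0 ≤ x 9 - (φ 2 - φ 0) ∧ x 9 - (φ 2 - φ 0) ≤ 1 := h 9
    have h11 : 0 ≤ x 11 - (φ 7 - φ 6) ∧ x 11 - (φ 7 - φ 6) ≤ 1 := h 11
    have h20 : 0 ≤ x 20 - (φ 6 - φ 2) ∧ x 20 - (φ 6 - φ 2) ≤ 1 := h 20
    omega
  have k10 : 0 ≤ 0 + x 13 + x 14 - x 16 ∧ 0 ≤ 1 + x 2 - x 17 - x 16 := by
    obtain ⟨φ, h, e⟩ := H (16, false)
    have e' : x 16 - (φ 4 - φ 0) = 0 := e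
    have h2 : 0 ≤ x 2 - (φ 7 - φ 0) ∧ x 2 - (φ 7 - φ 0) ≤ 1 := h 2
    have h13 : 0 ≤ x 13 - (φ 1 - φ 0) ∧ x 13 - (φ 1 - φ 0) ≤ 1 := h 13
    have h14 : 0 ≤ x 14 - (φ 4 - φ 1) ∧ x 14 - (φ 4 - φ 1) ≤ 1 := h 14
    have h17 : 0 ≤ x 17 - (φ 7 - φ 4) ∧ x 17 - (φ 7 - φ 4) ≤ 1 := h 17
    omega
  have k11 : 0 ≤ -1 + x 3 - x 4 + x 19 ∧ 0 ≤ -1 - x 9 + x 13 + x 19 := by
    obtain ⟨φ, h, e⟩ := H (19, true)
    have e' : x 19 - (φ 2 - φ 1) = 2 := e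
    have h3 : 0 ≤ x 3 - (φ 7 - φ 2) ∧ x 3 - (φ 7 - φ 2) ≤ 1 := h 3
    have h4 : 0 ≤ x 4 - (φ 7 - φ 1) ∧ x 4 - (φ 7 - φ 1) ≤ 1 := h 4
    have h9 : 0 ≤ x 9 - (φ 2 - φ 0) ∧ x 9 - (φ 2 - φ 0) ≤ 1 := h 9
    have h13 : 0 ≤ x 13 - (φ 1 - φ 0) ∧ x 13 - (φ 1 - φ 0) ≤ 1 := h 13
    omega
  omega

theorem tie (D f : VV → ℤ) (hD : ∀ v, 0 ≤ D v) (hd : ∑ v, D v ≤ 21)
    (hf : ∀ v, 0 ≤ D v - lap ss tt f v) (α : Fin 21 × Bool) :
    f (att α) = f (att (rep (blk α))) := by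
  by_contra hne
  have hα : rep (blk α) ≠ α := fun h => hne (by rw [h])
  have h := cut_le ss tt D f hD hf (max (f (att α)) (f (att (rep (blk α)))))
  have nn : ∀ θ a b : ℤ, 0 ≤ ((if θ ≤ a then 1 else 0) - (if θ ≤ b then 1 else 0)) * (a - b) := by
    intro θ a b
    split_ifs <;> omega
  rw [Fintype.sum_sum_type, Fintype.sum_prod_type] at h
  have h1 := sum_nonneg (s := univ) fun (a : Σ c : Fin 21, Fin (L c)) _ =>
    nn (max (f (att α)) (f (att (rep (blk α))))) (f (ss (Sum.inl a))) (f (tt (Sum.inl a)))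
  have h2 := single_le_sum (s := univ) (fun (τ : TT) _ => sum_nonneg (s := univ)
    fun (r : Fin 22) _ => nn (max (f (att α)) (f (att (rep (blk α))))) (f (ss (Sum.inr (τ, r))))
      (f (tt (Sum.inr (τ, r))))) (mem_univ ⟨α, hα⟩)
  have h3 : ∀ a b : ℤ, a ≠ b → 1 ≤ ((if max a b ≤ a then 1 else 0) -
      (if max a b ≤ b then 1 else 0)) * (a - b) := by
    intro a b hab
    split_ifs <;> omega
  have h4 := sum_le_sum (s := (univ : Finset (Fin 22))) fun r _ => h3 _ _ hne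
  rw [show ∑ _r : Fin 22, (1 : ℤ) = 22 by simp] at h4
  have h5 := h4.trans h2
  linarith

theorem comp_sum (f g : VV → ℤ) (hf : ∀ α, f (att α) = f (att (rep (blk α)))) (c : Fin 21)
    (hg : ∀ v : VV, v.1 ≠ c → g v = 0) :
    ∑ j, g ⟨c, j⟩ * lap ss tt f ⟨c, j⟩ = ∑ j : Fin (L c),
      (g ⟨c, j.castSucc⟩ - g ⟨c, j.succ⟩) * (f ⟨c, j.castSucc⟩ - f ⟨c, j.succ⟩) := by
  have h := sum_mul_lap ss tt f g
  rw [Fintype.sum_sum_type, Fintype.sum_sigma, Fintype.sum_sigma, sum_eq_single c,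
    sum_eq_single c, sum_eq_zero (s := (univ : Finset (TT × Fin 22))), add_zero] at h
  · exact h
  · intro a _
    simp only [ss, tt, Sum.elim_inr]
    rw [← hf, sub_self, mul_zero]
  · intro d _ hd
    refine sum_eq_zero fun j _ => ?_
    simp only [ss, tt, Sum.elim_inl]
    rw [hg _ hd, hg _ hd, sub_self, zero_mul]
  · simp
  · intro d _ hd
    refine sum_eq_zero fun j _ => ?_
    rw [hg _ hd, zero_mul]
  · simp

theorem comp_deg (f : VV → ℤ) (hf : ∀ α, f (att α) = f (att (rep (blk α)))) (c : Fin 21) :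
    ∑ j, lap ss tt f ⟨c, j⟩ = 0 ∧ ∑ j : Fin (L c + 1), (j : ℤ) * lap ss tt f ⟨c, j⟩ =
      f (att (rep (qq c))) - f (att (rep (pp c))) := by
  have h1 := comp_sum f (fun v => if v.1 = c then 1 else 0) hf c (fun v hv => if_neg hv)
  have h2 := comp_sum f (fun v => if v.1 = c then (v.2 : ℤ) else 0) hf c (fun v hv => if_neg hv)
  simp only [if_true, one_mul, sub_self, zero_mul, sum_const_zero] at h1
  simp only [if_true, Fin.val_castSucc, Fin.val_succ] at h2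
  refine ⟨h1, h2.trans ?_⟩
  have a := Fin.sum_univ_castSucc fun j => f ⟨c, j⟩
  have b := Fin.sum_univ_succ fun j => f ⟨c, j⟩
  have e1 : f ⟨c, Fin.last _⟩ = f (att (rep (qq c))) := hf (c, true)
  have e2 : f ⟨c, 0⟩ = f (att (rep (pp c))) := hf (c, false)
  rw [← e1, ← e2]
  calc _ = ∑ j : Fin (L c), (f ⟨c, j.succ⟩ - f ⟨c, j.castSucc⟩) :=
        sum_congr rfl fun j _ => by push_cast; ring
    _ = _ := by rw [sum_sub_distrib]; linarith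

theorem lower (D : VV → ℤ) (hD : ∀ v, 0 ≤ D v) (hr : RankGeOne ss tt D) : 22 ≤ ∑ v, D v := by
  by_contra hlt
  have hd : ∑ v, D v ≤ 21 := by omega
  have key : ∀ v, ∃ f : VV → ℤ, (∀ α, f (att α) = f (att (rep (blk α)))) ∧
      (∀ w, 0 ≤ D w - lap ss tt f w) ∧ 1 ≤ D v - lap ss tt f v := by
    intro v
    obtain ⟨f, hf⟩ := hr v
    have h1 : ∀ w, 0 ≤ D w - lap ss tt f w := fun w => by
      have := hf w
      split_ifs at this <;> linarith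
    have h2 := hf v
    rw [if_pos rfl] at h2
    exact ⟨f, tie D f hD hd h1, h1, by linarith⟩
  have d1 : ∀ c, 1 ≤ ∑ j, D ⟨c, j⟩ := by
    intro c
    obtain ⟨f, h1, h2, h3⟩ := key ⟨c, 0⟩
    have := single_le_sum (s := univ) (fun j _ => h2 ⟨c, j⟩) (mem_univ 0)
    rw [sum_sub_distrib, (comp_deg f h1 c).1] at this
    linarith
  have d2 : ∀ c, ∑ j, D ⟨c, j⟩ = 1 := by
    intro c
    rw [Fintype.sum_sigma] at hd
    have h := (sum_eq_sum_iff_of_le (s := univ) (fun c _ => d1 c)).mp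
      (le_antisymm (sum_le_sum fun c _ => d1 c) (by simpa using hd))
    exact (h c (mem_univ c)).symm
  refine core (fun c => ∑ j : Fin (L c + 1), (j : ℤ) * D ⟨c, j⟩) fun α => ?_
  obtain ⟨f, h1, h2, h3⟩ := key (att α)
  have e : ∀ c, ∑ j : Fin (L c + 1), (j : ℤ) * D ⟨c, j⟩ -
      (f (att (rep (qq c))) - f (att (rep (pp c)))) =
      ∑ j : Fin (L c + 1), (j : ℤ) * (D ⟨c, j⟩ - lap ss tt f ⟨c, j⟩) := by
    intro c
    simp only [mul_sub, sum_sub_distrib, (comp_deg f h1 c).2]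
  have o := fun c => one_chip (fun j => D ⟨c, j⟩ - lap ss tt f ⟨c, j⟩) (fun j => h2 _)
    (by rw [sum_sub_distrib, (comp_deg f h1 c).1, d2, sub_zero])
  refine ⟨fun b => f (att (rep b)), fun c => ?_, ?_⟩
  · rw [e]; exact ⟨(o c).1, (o c).2.1⟩
  · rw [e, (o α.1).2.2 _ h3]
    split_ifs <;> simp

abbrev V3 : Type := VV ⊕ (EE × Fin 2)

def P (c : Fin 21) (n : ℕ) : V3 :=
  if h : n / 3 < L c ∧ n % 3 ≠ 0 then
    Sum.inr (Sum.inl ⟨c, ⟨n / 3, h.1⟩⟩, ⟨n % 3 - 1, by omega⟩)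
  else Sum.inl ⟨c, ⟨min (n / 3) (L c), by omega⟩⟩

theorem P0 (c : Fin 21) (j : Fin (L c + 1)) : P c (3 * j) = Sum.inl ⟨c, j⟩ := by
  have := j.2
  rw [P, dif_neg (by omega)]
  congr 2
  ext; simp only; omega

theorem P1 (c : Fin 21) (j : Fin (L c)) (i : Fin 2) :
    P c (3 * j + i + 1) = Sum.inr (Sum.inl ⟨c, j⟩, i) := by
  have := j.2
  have := i.2
  rw [P, dif_pos (by omega)]
  congr 2
  · congr 2
    ext; simp only; omega
  · ext; simp only; omega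

def ff (F : Fin 21 → ℕ → ℤ) (φ : ℕ → ℤ) (δ : TT × Fin 22 → ℤ) : V3 → ℤ :=
  Sum.elim (fun v => F v.1 (3 * v.2)) fun a =>
    Sum.elim (fun b => F b.1 (3 * b.2 + a.2 + 1)) (fun e => φ (blk e.1.1) - δ e) a.1

theorem up_sum (φ : ℕ → ℤ) (y : Fin 21 → ℕ) (hx : ∀ c, xx c ≤ 3 * L c) (hy : ∀ c, y c ≤ 3 * L c)
    (hφ : ∀ c, (xx c : ℤ) - (φ (qq c) - φ (pp c)) = y c) (δ : TT × Fin 22 → ℤ) (g : V3 → ℤ) :
    ∑ v, g v * lap (subS ss 2) (subT tt 2)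
      (ff (fun c n => φ (pp c) + (min n (xx c) : ℕ) - (min n (y c) : ℕ)) φ δ) v =
    ∑ c, (g (P c (xx c)) - g (P c (y c))) + ∑ e : TT × Fin 22, δ e *
      (g (Sum.inl (att e.1.1)) + g (Sum.inl (att (rep (blk e.1.1)))) -
        g (Sum.inr (Sum.inr e, 0)) - g (Sum.inr (Sum.inr e, 1))) := by
  obtain ⟨F, hF⟩ : ∃ F : Fin 21 → ℕ → ℤ,
    F = fun c n => φ (pp c) + (min n (xx c) : ℕ) - (min n (y c) : ℕ) := ⟨_, rfl⟩
  have ha : ∀ α, ff F φ δ (Sum.inl (att α)) = φ (blk α) := by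
    rintro ⟨c, b⟩
    have := hφ c
    have := hx c
    have := hy c
    cases b
    · simp [ff, att, blk, hF]
    · simp only [ff, att, blk, hF, Sum.elim_inl, if_true, Fin.val_last]
      omega
  rw [← hF, sum_mul_lap, Fintype.sum_prod_type, Fintype.sum_sum_type, Fintype.sum_sigma]
  congr 1
  · refine sum_congr rfl fun c _ => ?_
    have t1 := tele (fun n => g (P c n)) (xx c) (3 * L c)
    have t2 := tele (fun n => g (P c n)) (y c) (3 * L c)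
    rw [min_eq_right (hx c)] at t1
    rw [min_eq_right (hy c)] at t2
    have t3 := sum_three (fun n => (g (P c n) - g (P c (n + 1))) * (F c n - F c (n + 1))) (L c)
    have t4 : ∑ n ∈ range (3 * L c), (g (P c n) - g (P c (n + 1))) * (F c n - F c (n + 1)) =
        g (P c (xx c)) - g (P c (y c)) := by
      have := congrArg₂ (· - ·) t2 t1
      simp only [← sum_sub_distrib] at this
      rw [show g (P c (xx c)) - g (P c (y c)) = g (P c 0) - g (P c (y c)) -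
        (g (P c 0) - g (P c (xx c))) by ring, ← this]
      refine sum_congr rfl fun n _ => ?_
      rw [hF]; ring
    rw [← t4, ← t3]
    refine sum_congr rfl fun j _ => ?_
    have p0 : P c (3 * j) = _ := P0 c j.castSucc
    have p1 : P c (3 * j + 1) = _ := P1 c j 0
    have p2 : P c (3 * j + 1 + 1) = _ := P1 c j 1
    have p3 : P c (3 * j + 2 + 1) = _ := P0 c j.succ
    rw [Fin.sum_univ_three, show 3 * (j : ℕ) + 2 = 3 * j + 1 + 1 from rfl] 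
    rw [show 3 * (j : ℕ) + 1 + 1 + 1 = 3 * j + 2 + 1 from rfl, p0, p1, p2, p3]
    rfl
  · refine sum_congr rfl fun e _ => ?_
    rw [Fin.sum_univ_three]
    have a1 := ha e.1.1
    have a2 := ha (rep (blk e.1.1))
    rw [blk_rep] at a2
    change (g (Sum.inl (att e.1.1)) - g (Sum.inr (Sum.inr e, 0))) *
      (ff F φ δ (Sum.inl (att e.1.1)) - (φ (blk e.1.1) - δ e)) +
      (g (Sum.inr (Sum.inr e, 0)) - g (Sum.inr (Sum.inr e, 1))) *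
      ((φ (blk e.1.1) - δ e) - (φ (blk e.1.1) - δ e)) +
      (g (Sum.inr (Sum.inr e, 1)) - g (Sum.inl (att (rep (blk e.1.1))))) *
      ((φ (blk e.1.1) - δ e) - ff F φ δ (Sum.inl (att (rep (blk e.1.1))))) = _
    rw [a1, a2]; ring

theorem hxx (c : Fin 21) : xx c ≤ 3 * L c := by have := dd_tight c; omega

theorem up_one (α : Fin 21 × Bool) (m : ℕ) (δ : TT × Fin 22 → ℤ) : ∃ (y : Fin 21 → ℕ) (f : V3 → ℤ),
    (∀ c, (xx c : ℤ) - (min (dd (blk α) (qq c)) m : ℕ) + (min (dd (blk α) (pp c)) m : ℕ) = y c) ∧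
    ∀ w, ∑ c, (if P c (xx c) = w then 1 else 0) - lap (subS ss 2) (subT tt 2) f w =
      ∑ c, (if P c (y c) = w then 1 else 0) - ∑ e : TT × Fin 22, δ e *
      ((if Sum.inl (att e.1.1) = w then 1 else 0) +
        (if Sum.inl (att (rep (blk e.1.1))) = w then 1 else 0) -
        (if Sum.inr (Sum.inr e, 0) = w then 1 else 0) -
        (if Sum.inr (Sum.inr e, 1) = w then 1 else 0)) := by
  refine ⟨fun c => xx c + min (dd (blk α) (pp c)) m - min (dd (blk α) (qq c)) m, ?_⟩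
  have hs := dd_spec α
  have h := fun w => up_sum (fun b => (min (dd (blk α) b) m : ℕ))
    (fun c => xx c + min (dd (blk α) (pp c)) m - min (dd (blk α) (qq c)) m) hxx
    (fun c => by have := hs c; have := hxx c; omega) (fun c => by have := hs c; omega) δ
    (fun v => if v = w then 1 else 0)
  simp only [ite_mul, one_mul, zero_mul, sum_ite_eq', mem_univ, if_true] at h
  exact ⟨_, fun c => by have := hs c; simp only; omega, fun w => by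
    rw [h w, sum_sub_distrib]; ring⟩

theorem upper : RankGeOne (subS ss 2) (subT tt 2)
    (fun w => ∑ c, if P c (xx c) = w then 1 else 0) := by
  have nn : ∀ (p : Prop) [Decidable p], (0 : ℤ) ≤ if p then 1 else 0 := by
    intro p _; split_ifs <;> simp
  have path : ∀ c n, n ≤ 3 * L c → ∃ f : V3 → ℤ, ∀ w, 0 ≤ ∑ c, (if P c (xx c) = w then 1 else 0)
      - (if w = P c n then 1 else 0) - lap (subS ss 2) (subT tt 2) f w := by
    intro c n hn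
    obtain ⟨y, f, h1, h2⟩ := up_one (c, decide (xx c ≤ n)) (xx c - n + (n - xx c)) 0
    have hy : y c = n := by
      have h1 := h1 c
      have := dd_tight c
      by_cases h : xx c ≤ n
      · simp only [blk, h, decide_true, if_true] at h1; omega
      · simp only [blk, h, decide_false, Bool.false_eq_true, if_false] at h1; omega
    refine ⟨f, fun w => ?_⟩
    have h2 := h2 w
    simp only [Pi.zero_apply, zero_mul, sum_const_zero] at h2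
    have h3 := single_le_sum (s := univ) (fun d _ => nn (P d (y d) = w)) (mem_univ c)
    simp only [hy] at h3
    simp only [eq_comm (a := w)]
    linarith
  rintro (⟨c, j⟩ | ⟨⟨c, j⟩ | e, i⟩)
  · rw [← P0]; exact path c _ (by have := j.2; omega)
  · rw [← P1]; exact path c _ (by have := j.2; have := i.2; omega)
  · obtain ⟨y, f, h1, h2⟩ := up_one e.1.1 9 (fun e' => if e' = e then 1 else 0)
    have hy : ∀ β, blk β = blk e.1.1 → P β.1 (y β.1) = Sum.inl (att β) := by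
      rintro ⟨c, b⟩ hb
      have h1 := h1 c
      have := dd_tight c
      have : L c ≤ 3 := (by decide : ∀ c, L c ≤ 3) c
      rw [← hb] at h1
      cases b
      · simp only [blk, Bool.false_eq_true, if_false] at h1
        rw [show y c = 3 * (0 : Fin (L c + 1)) by simp only [Fin.val_zero]; omega]
        exact P0 c _
      · simp only [blk, if_true] at h1
        rw [show y c = 3 * (Fin.last (L c)) by simp only [Fin.val_last]; omega]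
        exact P0 c _
    refine ⟨f, fun w => ?_⟩
    have h2 := h2 w
    simp only [ite_mul, one_mul, zero_mul, sum_ite_eq', mem_univ, if_true] at h2
    have h3 := add_le_sum (s := univ) (fun d _ => nn (P d (y d) = w)) (mem_univ _) (mem_univ _)
      (rep_ne _ e.1.2)
    simp only [hy _ rfl, hy _ (blk_rep _)] at h3
    simp only [eq_comm (a := w)]
    have n0 := nn ((Sum.inr (Sum.inr e, 0) : V3) = w)
    have n1 := nn ((Sum.inr (Sum.inr e, 1) : V3) = w)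
    fin_cases i
    · simp only [Fin.zero_eta]; linarith
    · simp only [Fin.mk_one]; linarith

theorem conn : Connected ss tt := by
  obtain ⟨R, hR⟩ : ∃ R : VV → VV → Prop,
    R = Relation.EqvGen (fun a b => ∃ e, ss e = a ∧ tt e = b) := ⟨_, rfl⟩
  have eq : Equivalence R := hR ▸ Relation.EqvGen.is_equivalence _
  have ed : ∀ e, R (ss e) (tt e) := fun e => hR ▸ Relation.EqvGen.rel _ _ ⟨e, rfl, rfl⟩
  have h1 : ∀ c (j : Fin (L c + 1)), R ⟨c, 0⟩ ⟨c, j⟩ := fun c j => by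
    induction j using Fin.induction with
    | zero => exact eq.refl _
    | succ j ih => exact eq.trans ih (ed (Sum.inl ⟨c, j⟩))
  have h2 : ∀ α, R (att α) (att (rep (blk α))) := fun α => by
    by_cases h : rep (blk α) = α
    · rw [h]; exact eq.refl _
    · exact ed (Sum.inr (⟨α, h⟩, 0))
  have h3 : ∀ c, R (att (rep (pp c))) (att (rep (qq c))) := fun c =>
    eq.trans (eq.symm (h2 (c, false))) (eq.trans (h1 c _) (h2 (c, true)))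
  have h4 : ∀ b ≤ 7, R (att (rep 0)) (att (rep b)) := fun b hb => by
    interval_cases b
    exacts [eq.refl _, h3 13, h3 9, eq.trans (h3 5) (eq.symm (h3 0)), h3 16, h3 5, h3 1, h3 2]
  have h5 : ∀ v, R (att (rep 0)) v := fun ⟨c, j⟩ =>
    eq.trans (h4 (pp c) (by revert c; decide)) (eq.trans (eq.symm (h2 (c, false))) (h1 c j))
  exact ⟨⟨att (rep 0)⟩, fun u v => hR ▸ eq.trans (eq.symm (h5 u)) (h5 v)⟩

/-- A connected loopless multigraph whose gonality drops when every edge is replaced by a path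
with three edges. -/
theorem result : ∃ (V E : Type) (_ : Fintype V) (_ : DecidableEq V) (_ : Fintype E)
    (_ : DecidableEq E) (s t : E → V), (∀ e, s e ≠ t e) ∧ Connected s t ∧
    gon (subS s 2) (subT t 2) < gon s t := by
  refine ⟨VV, EE, inferInstance, inferInstance, inferInstance, inferInstance, ss, tt, ?_, conn, ?_⟩
  · rintro (⟨c, j⟩ | e) h
    · have := congrArg (fun v : VV => (v.2 : ℕ)) h
      simp [ss, tt] at this
    · exact rep_ne _ e.1.2 (congrArg Sigma.fst h).symm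
  · have h1 : gon (subS ss 2) (subT tt 2) ≤ 21 := by
      refine Nat.sInf_le ⟨_, fun v => sum_nonneg fun c _ => by split_ifs <;> simp, ?_, upper⟩
      rw [sum_comm]; simp
    have h2 : 22 ≤ gon ss tt := by
      refine le_csInf ⟨Fintype.card VV, fun _ => 1, by simp, by simp, fun v => ⟨0, fun w => ?_⟩⟩ ?_
      · simp only [lap, Pi.zero_apply, sub_self, ite_self, add_zero, sum_const_zero, sub_zero]
        split_ifs <;> simp
      · rintro d ⟨D, h1, h2, h3⟩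
        have := lower D h1 h3
        omega
    omega

end Pool.Agent.Results.MP_28c31d_co.OddSub
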